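import Mathlib

/-!
# Linear algebra for the job P3A: ranks of integral matrices
-/

set_option autoImplicit false

namespace Pool.Agent.V8H74.LT

open Matrix Module

theorem exists_rows {m n : Type*} [Fintype m] [Fintype n] {F : Type*} [Field F] (A : Matrix m n F) {d : ℕ}
    (hd : A.rank = d) : ∃ r : Fin d → m, LinearIndependent F (fun i => A (r i)) := by
  obtain ⟨f, hf, -, hli⟩ := Submodule.exists_fun_fin_finrank_span_eq F (Set.range A.row)
  have key : ∀ e : ℕ, e = d → ∀ g : Fin e → (n → F), (∀ i, g i ∈ Set.range A.row) →
      LinearIndependent F g → ∃ r : Fin d → m, LinearIndependent F (fun i => A (r i)) := by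
    rintro e rfl g hg hli
    choose r hr using hg
    refine ⟨r, ?_⟩
    have : (fun i => A (r i)) = g := by
      funext i
      exact hr i
    rw [this]
    exact hli
  exact key _ (A.rank_eq_finrank_span_row.symm.trans hd) f hf hli

/-- a matrix over a field has an invertible submatrix of the size of its rank -/
theorem exists_det {m n : Type*} [Fintype m] [Fintype n] {F : Type*} [Field F] (A : Matrix m n F) :
    ∃ (r : Fin A.rank → m) (c : Fin A.rank → n), (A.submatrix r c).det ≠ 0 := by
  classical
  obtain ⟨r, hr⟩ := exists_rows A rfl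
  have h1 : (A.submatrix r id).rank = A.rank := by
    have h2 : LinearIndependent F (A.submatrix r id).row := hr
    rw [h2.rank_matrix, Fintype.card_fin]
  obtain ⟨c, hc⟩ := exists_rows (A.submatrix r id)ᵀ (d := A.rank) (by rw [Matrix.rank_transpose, h1])
  refine ⟨r, c, ?_⟩
  have h3 : LinearIndependent F (A.submatrix r c)ᵀ.row := hc
  have h4 := (Matrix.linearIndependent_rows_iff_isUnit).1 h3
  rw [Matrix.isUnit_transpose] at h4
  exact ((Matrix.isUnit_iff_isUnit_det _).1 h4).ne_zero

/-- the rank of an integral matrix does not increase modulo `p` -/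
theorem rank_mod_le {m n : Type*} [Fintype m] [Fintype n] (A : Matrix m n ℤ) {F K : Type*} [Field F] [Field K]
    [CharZero K] : (A.map (Int.castRingHom F)).rank ≤ (A.map (Int.castRingHom K)).rank := by
  classical
  obtain ⟨r, c, h⟩ := exists_det (A.map (Int.castRingHom F))
  have h1 : (A.submatrix r c).det ≠ 0 := by
    intro h0
    apply h
    have : (A.map (Int.castRingHom F)).submatrix r c = (A.submatrix r c).map (Int.castRingHom F) := rfl
    rw [this, ← RingHom.mapMatrix_apply, ← RingHom.map_det, h0, map_zero]
  have h2 : ((A.map (Int.castRingHom K)).submatrix r c).det ≠ 0 := by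
    have : (A.map (Int.castRingHom K)).submatrix r c = (A.submatrix r c).map (Int.castRingHom K) := rfl
    rw [this, ← RingHom.mapMatrix_apply, ← RingHom.map_det]
    simpa using h1
  have h3 := Matrix.rank_of_det_ne_zero h2
  rw [Fintype.card_fin] at h3
  rw [← h3]
  exact Matrix.rank_submatrix_le _ _ _

end Pool.Agent.V8H74.LT
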