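import Pool.Agent.N496.LT.Stm
import Pool.Agent.V8H74.LT.LA

/-!
# Job P3A: torsion of a complex over a finite group from the ranks
-/

set_option autoImplicit false

namespace Pool.Agent.V8H74.LT

open Matrix Module Pool.Agent.N496.LT

section

variable {Q : Type} [Group Q] [Fintype Q]

theorem coeff_mul_sum' (a b : MonoidAlgebra ℤ Q) (g h : Q) :
    (a * b).coeff (g⁻¹ * h) = ∑ x, a.coeff (g⁻¹ * x) * b.coeff (x⁻¹ * h) := by
  classical
  induction a using MonoidAlgebra.induction_linear with
  | zero => simp
  | add a a' h1 h2 => simp [add_mul, h1, h2, Finset.sum_add_distrib]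
  | single y r =>
    rw [MonoidAlgebra.coeff_single_mul_apply, Finset.sum_eq_single (g * y)]
    · simp [mul_assoc]
    · intro x _ hx
      rw [MonoidAlgebra.coeff_single, Finsupp.single_apply, if_neg, zero_mul]
      rintro rfl
      exact hx (by group)
    · simp

theorem mat_mul (C : GCx Q) (F : Type) [Ring F] : C.mat F * C.mat F = 0 := by
  ext x y
  rw [Matrix.mul_apply, Matrix.zero_apply]
  have h1 := congrFun (congrFun C.D_sq x.1) y.1
  rw [Matrix.mul_apply, Matrix.zero_apply] at h1
  have h2 := congrArg (fun a : MonoidAlgebra ℤ Q => ((a.coeff (x.2⁻¹ * y.2) : ℤ) : F)) h1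
  simp only [MonoidAlgebra.coeff_sum, Finsupp.finsetSum_apply, coeff_mul_sum'] at h2
  push_cast at h2
  rw [Fintype.sum_prod_type]
  simp only [GCx.mat, Matrix.of_apply]
  rw [h2]
  simp

omit [Fintype Q] in
theorem mat_deg (C : GCx Q) (F : Type) [Ring F] (x y : C.ι × Q) (h : C.mat F x y ≠ 0) :
    C.deg x.1 = C.deg y.1 + 1 := by
  apply C.D_deg
  intro h0
  apply h
  simp [GCx.mat, h0]

theorem rk_add_le (C : GCx Q) (F : Type) [Field F] (n : ℕ) :
    C.rk F n + C.rk F (n + 1) ≤ Fintype.card {i : C.ι // C.deg i = n} * Fintype.card Q := by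
  classical
  set M := C.mat F with hM
  -- the boundary from degree `n + 1` to degree `n`
  let B : Matrix {x : C.ι × Q // C.deg x.1 = n + 1} {x : C.ι × Q // C.deg x.1 = n} F :=
    M.submatrix (fun x => x.1) (fun x => x.1)
  let A : Matrix {x : C.ι × Q // C.deg x.1 = n} (C.ι × Q) F := M.submatrix (fun x => x.1) id
  have hBA : B * A = 0 := by
    ext x y
    rw [Matrix.mul_apply, Matrix.zero_apply]
    have h1 := congrFun (congrFun (mat_mul C F) x.1) y
    rw [Matrix.mul_apply, Matrix.zero_apply] at h1
    rw [← h1]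
    have h2 : ∑ j : {x : C.ι × Q // C.deg x.1 = n}, M x.1 j.1 * M j.1 y = ∑ j, M x.1 j * M j y := by
      rw [← Finset.sum_subtype (Finset.univ.filter fun k : C.ι × Q => C.deg k.1 = n) (by simp)
        (fun j => M x.1 j * M j y), Finset.sum_filter]
      refine Finset.sum_congr rfl fun k _ => ?_
      split_ifs with hk
      · rfl
      · by_cases h0 : M x.1 k = 0
        · rw [h0, zero_mul]
        · exfalso
          apply hk
          have := mat_deg C F _ _ h0
          rw [x.2] at this
          omega
    exact h2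
  have h3 := Matrix.rank_add_rank_le_card_of_mul_eq_zero hBA
  have h4 : B.rank = C.rk F (n + 1) := by
    -- the other columns are zero
    refine le_antisymm ?_ ?_
    · have : B = ((C.mat F).submatrix (fun x : {x : C.ι × Q // C.deg x.1 = n + 1} => x.1) id).submatrix id
          (fun x : {x : C.ι × Q // C.deg x.1 = n} => x.1) := rfl
      rw [this]
      exact Matrix.rank_submatrix_le _ _ _
    · unfold GCx.rk
      let S : Matrix {x : C.ι × Q // C.deg x.1 = n} (C.ι × Q) F :=
        Matrix.of fun a b => if a.1 = b then 1 else 0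
      have h5 : (C.mat F).submatrix (fun x : {x : C.ι × Q // C.deg x.1 = n + 1} => x.1) id = B * S := by
        ext x y
        rw [Matrix.mul_apply, Matrix.submatrix_apply]
        by_cases hy : C.deg y.1 = n
        · rw [Finset.sum_eq_single ⟨y, hy⟩]
          · simp [B, S, hM]
          · intro b _ hb
            have : b.1 ≠ y := fun h => hb (Subtype.ext h)
            simp [S, this]
          · simp
        · rw [Finset.sum_eq_zero]
          · by_contra h0
            have := mat_deg C F _ _ h0
            rw [x.2] at this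
            apply hy
            simp only [id] at this
            omega
          · intro b _
            have : b.1 ≠ y := by
              rintro rfl
              exact hy b.2
            simp [S, this]
      rw [h5]
      exact Matrix.rank_mul_le_left _ _
  have h6 : A.rank = C.rk F n := rfl
  have h7 : Fintype.card {x : C.ι × Q // C.deg x.1 = n} =
      Fintype.card {i : C.ι // C.deg i = n} * Fintype.card Q := by
    rw [← Fintype.card_prod]
    exact Fintype.card_congr
      { toFun := fun x => (⟨x.1.1, x.2⟩, x.1.2)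
        invFun := fun y => ⟨(y.1.1, y.2), y.1.2⟩
        left_inv := fun x => rfl
        right_inv := fun y => rfl }
  rw [h4, h6, h7] at h3
  omega

theorem rk_mod_le (C : GCx Q) (p : ℕ) [Fact p.Prime] (n : ℕ) : C.rk (ZMod p) n ≤ C.rk ℝ n := by
  let A : Matrix {x : C.ι × Q // C.deg x.1 = n} (C.ι × Q) ℤ :=
    Matrix.of fun x y => (C.D x.1.1 y.1).coeff (x.1.2⁻¹ * y.2)
  exact rank_mod_le A (F := ZMod p) (K := ℝ)

end

theorem p3a : P3A := by
  intro Q _ _ C p _ n
  refine ⟨rk_mod_le C p n, ?_, ?_⟩
  · have h : ((C.rk ℝ n + C.rk ℝ (n + 1) : ℕ) : ℤ) ≤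
        ((Fintype.card {i : C.ι // C.deg i = n} * Fintype.card Q : ℕ) : ℤ) := by
      exact_mod_cast rk_add_le C ℝ n
    unfold GCx.betti
    push_cast at h
    linarith
  · have h1 := rk_mod_le C p (n + 1)
    have h3 : ((C.rk (ZMod p) (n + 2 + 1) : ℕ) : ℤ) ≤ ((C.rk ℝ (n + 2 + 1) : ℕ) : ℤ) := by
      exact_mod_cast rk_mod_le C p (n + 2 + 1)
    have h4 : ((C.rk ℝ (n + 2) + C.rk ℝ (n + 2 + 1) : ℕ) : ℤ) ≤
        ((Fintype.card {i : C.ι // C.deg i = n + 2} * Fintype.card Q : ℕ) : ℤ) := by
      exact_mod_cast rk_add_le C ℝ (n + 2)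
    unfold GCx.betti GCx.tp
    have e1 : n + 1 + 1 = n + 2 := rfl
    simp only [e1]
    rw [Nat.cast_sub h1]
    push_cast at h4
    linarith

end Pool.Agent.V8H74.LT
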