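import Pool.Agent.N496.LT.Stm
import Pool.Agent.W143.SG.P

/-!
# Job P4R: residual finiteness of the kernel of `W → (ℤ/2)^V`
-/

set_option autoImplicit false

namespace Pool.Agent.V8H74.LT

open Pool.Agent.N496.LT Pool.Agent.W907.SG Pool.Agent.W461.SGN

/-- intersections of the first subgroups of a sequence -/
def cap {G : Type} [Group G] (M : ℕ → Subgroup G) : ℕ → Subgroup G
  | 0 => M 0
  | j + 1 => cap M j ⊓ M (j + 1)

theorem cap_normal {G : Type} [Group G] (M : ℕ → Subgroup G) (h : ∀ i, (M i).Normal) (i : ℕ) :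
    (cap M i).Normal := by
  induction i with
  | zero => exact h 0
  | succ i ih =>
    have h2 := h (i + 1)
    exact Subgroup.normal_inf_normal _ _

theorem cap_finite {G : Type} [Group G] (M : ℕ → Subgroup G) (h : ∀ i, (M i).FiniteIndex) (i : ℕ) :
    (cap M i).FiniteIndex := by
  induction i with
  | zero => exact h 0
  | succ i ih =>
    have h2 := h (i + 1)
    exact (inferInstance : (cap M i ⊓ M (i + 1)).FiniteIndex)

theorem resFin_of (G : Type) [Group G] [Countable G]
    (h : ∀ g : G, g ≠ 1 → ∃ N : Subgroup G, N.Normal ∧ N.FiniteIndex ∧ g ∉ N) : ResFin G := by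
  classical
  have h' : ∀ g : G, ∃ N : Subgroup G, N.Normal ∧ N.FiniteIndex ∧ (g ≠ 1 → g ∉ N) := by
    intro g
    by_cases hg : g = 1
    · exact ⟨⊤, inferInstance, inferInstance, fun h => absurd hg h⟩
    · obtain ⟨N, h1, h2, h3⟩ := h g hg
      exact ⟨N, h1, h2, fun _ => h3⟩
  choose M hn hf hM using h'
  obtain ⟨e, he⟩ := exists_surjective_nat G
  refine ⟨cap fun i => M (e i), cap_normal _ fun i => hn _, cap_finite _ fun i => hf _, ?_, ?_⟩
  · exact antitone_nat_of_succ_le fun i => inf_le_left
  · rw [eq_bot_iff]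
    intro g hg
    rw [Subgroup.mem_iInf] at hg
    by_contra hne
    obtain ⟨i, rfl⟩ := he g
    have h1 : cap (fun i => M (e i)) i ≤ M (e i) := by
      cases i with
      | zero => exact le_rfl
      | succ i => exact inf_le_right
    exact hM _ (fun h => hne (by rw [h]; exact Subgroup.one_mem _)) (h1 (hg i))

theorem countable_W {V : Type} [Finite V] (G : SimpleGraph V) : Countable (W G) := by
  have h : Function.Surjective (cox G).toCoxeterSystem.wordProd := (cox G).toCoxeterSystem.wordProd_surjective
  exact h.countable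

theorem p4r : P4R := by
  intro V _ G
  have := countable_W G
  apply resFin_of
  intro g hg
  have hg1 : (g : W G) ≠ 1 := fun h => hg (Subtype.ext h)
  have : Fact (Nat.Prime 3) := ⟨by norm_num⟩
  obtain ⟨Y, _, ⟨y0⟩, P, ev, h1, h2, -, h4⟩ := Pool.Agent.W143.SG.P.nilp 3 V G {(g : W G)} (by norm_num) (by
    simpa using hg1.symm)
  let f : (th G).ker →* Equiv.Perm Y :=
    { toFun := fun x => ⟨fun y => ev y (x : W G)⁻¹, fun y => ev y (x : W G), fun y => by
        simp only
        rw [← h2, inv_mul_cancel, h1], fun y => by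
        simp only
        rw [← h2, mul_inv_cancel, h1]⟩
      map_one' := by
        ext y
        simp [h1]
      map_mul' := fun x z => by
        ext y
        simp only [Subgroup.coe_mul, mul_inv_rev, Equiv.coe_fn_mk, Equiv.Perm.mul_apply, h2] }
  refine ⟨f.ker, inferInstance, inferInstance, ?_⟩
  intro h
  rw [MonoidHom.mem_ker] at h
  have h5 : ev y0 (g : W G)⁻¹ = y0 := by
    have := congrArg (fun q : Equiv.Perm Y => q y0) h
    exact this
  refine h4 _ (Finset.mem_singleton_self _) y0 ?_
  conv_lhs => rw [← h5]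
  rw [← h2, inv_mul_cancel, h1]

end Pool.Agent.V8H74.LT
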